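import Mathlib

/-!
# Monochromatic degree-monotone paths of order three

`M k m` is the least `M` such that for every `n ≥ M` every colouring of the edges of `K_n` with
`k` colours contains a degree-monotone path of order `m` in one of the colour graphs.
We show that `M k 3 / 2 ^ k` tends to `1`.

Lower bound: let `k = a + b`.  The vertices are the pairs `(x, y)` of a proper subset `x` of the
first `a` colours and a proper subset `y` of the other `b` colours.  Both families have odd size,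
so they carry rotational tournaments; a pair of vertices is coloured by a colour of the first block
in `x ∆ x'` or by a colour of the second block in `y ∆ y'`, depending on whether the two
orientations agree.  The degree of `(x, y)` in a colour `j` takes the same value for all vertices
with `j` in the corresponding subset, and a smaller value for the other vertices.
-/

set_option autoImplicit false

open Filter Topology symmDiff

namespace Pool.Agent.Results.MP_7de56e_co.LimitOne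

/-- The graph formed by the edges of colour `j`. -/
def colourGraph {V κ : Type} (c : Sym2 V → κ) (j : κ) : SimpleGraph V where
  Adj u v := u ≠ v ∧ c s(u, v) = j
  symm := ⟨fun u v h => ⟨h.1.symm, by rw [Sym2.eq_swap]; exact h.2⟩⟩
  loopless := ⟨fun u h => h.1 rfl⟩

/-- `G` contains a path with exactly `m` vertices along which the degrees (in `G`) do not
decrease. -/
def HasDegreeMonotonePath {V : Type} (G : SimpleGraph V) (m : ℕ) : Prop :=
  ∃ (u v : V) (p : G.Walk u v), p.IsPath ∧ p.support.length = m ∧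
    (p.support.map (fun x => (G.neighborSet x).ncard)).Pairwise (· ≤ ·)

/-- The integers `M` such that for all `n ≥ M` every colouring of the edges of `K_n` with `k`
colours contains a degree-monotone path of order `m` in some colour. -/
def Good (k m : ℕ) : Set ℕ :=
  {M | ∀ n, M ≤ n → ∀ c : Sym2 (Fin n) → Fin k, ∃ j, HasDegreeMonotonePath (colourGraph c j) m}

/-- `M_k(m)`. -/
noncomputable def M (k m : ℕ) : ℕ := sInf (Good k m)

/-! ### paths of order three -/

lemma has_three {V : Type} {G : SimpleGraph V} {u v w : V} (h1 : G.Adj u v) (h2 : G.Adj v w)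
    (huw : u ≠ w) (d1 : (G.neighborSet u).ncard ≤ (G.neighborSet v).ncard)
    (d2 : (G.neighborSet v).ncard ≤ (G.neighborSet w).ncard) : HasDegreeMonotonePath G 3 := by
  refine ⟨u, w, SimpleGraph.Walk.cons h1 (SimpleGraph.Walk.cons h2 SimpleGraph.Walk.nil), ?_, ?_, ?_⟩
  · simp [SimpleGraph.Walk.isPath_def, h1.ne, h2.ne, huw]
  · simp
  · simp [d1, d2, d1.trans d2]

lemma of_has_three {V : Type} {G : SimpleGraph V} (h : HasDegreeMonotonePath G 3) :
    ∃ u v w, G.Adj u v ∧ G.Adj v w ∧ (G.neighborSet u).ncard ≤ (G.neighborSet v).ncard ∧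
      (G.neighborSet v).ncard ≤ (G.neighborSet w).ncard := by
  obtain ⟨u, v, p, hp, hl, hd⟩ := h
  cases p with
  | nil => simp at hl
  | cons h1 q =>
    cases q with
    | nil => simp at hl
    | cons h2 r =>
      cases r with
      | nil =>
        simp at hd
        exact ⟨_, _, _, h1, h2, hd.1.1, hd.2⟩
      | cons h3 s => simp at hl

/-! ### the upper bound -/

section Upper

variable {n k : ℕ} (c : Sym2 (Fin n) → Fin k)

/-- degree in colour `j` -/
noncomputable def dg (j : Fin k) (v : Fin n) : ℕ := ((colourGraph c j).neighborSet v).ncard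

/-- order by degree in colour `j`, ties broken by the index -/
def below (j : Fin k) (u v : Fin n) : Prop := dg c j u < dg c j v ∨ (dg c j u = dg c j v ∧ u < v)

open Classical in
/-- `v` has a lower neighbour in colour `j` -/
noncomputable def bit (v : Fin n) (j : Fin k) : Bool :=
  decide (∃ u, (colourGraph c j).Adj u v ∧ below c j u v)

lemma upper (h : ∀ j, ¬ HasDegreeMonotonePath (colourGraph c j) 3) : n ≤ 2 ^ k := by
  classical
  have key : ∀ j u v, (colourGraph c j).Adj u v → below c j u v → bit c u j ≠ bit c v j := by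
    intro j u v huv hb
    have h1 : bit c v j = true := by
      simp only [bit, decide_eq_true_eq]
      exact ⟨u, huv, hb⟩
    have h2 : bit c u j = false := by
      simp only [bit, decide_eq_false_iff_not]
      rintro ⟨w, hwu, hwb⟩
      refine h j (has_three hwu huv ?_ ?_ ?_)
      · rintro rfl
        rcases hb with hb | ⟨hb, hb'⟩ <;> rcases hwb with hwb | ⟨hwb, hwb'⟩
        · omega
        · omega
        · omega
        · exact lt_asymm hb' hwb'
      · rcases hwb with hwb | ⟨hwb, -⟩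
        · exact hwb.le
        · exact hwb.le
      · rcases hb with hb | ⟨hb, -⟩
        · exact hb.le
        · exact hb.le
    rw [h1, h2]; simp
  have hinj : Function.Injective (bit c) := by
    intro u v huv
    by_contra hne
    have hadj : (colourGraph c (c s(u, v))).Adj u v := ⟨hne, rfl⟩
    have htot : below c (c s(u, v)) u v ∨ below c (c s(u, v)) v u := by
      unfold below
      rcases lt_trichotomy (dg c (c s(u, v)) u) (dg c (c s(u, v)) v) with h1 | h1 | h1
      · exact Or.inl (Or.inl h1)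
      · rcases lt_or_gt_of_ne hne with h2 | h2
        · exact Or.inl (Or.inr ⟨h1, h2⟩)
        · exact Or.inr (Or.inr ⟨h1.symm, h2⟩)
      · exact Or.inr (Or.inl h1)
    rcases htot with h1 | h1
    · exact key _ _ _ hadj h1 (congrFun huv _)
    · exact key _ _ _ hadj.symm h1 (congrFun huv _).symm
  have := Fintype.card_le_of_injective _ hinj
  simpa using this

end Upper

lemma good_upper (k : ℕ) : 2 ^ k + 1 ∈ Good k 3 := by
  intro n hn c
  by_contra hc
  push Not at hc
  have := upper c hc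
  omega

/-! ### rotational structure on a finite set of odd size -/

lemma exists_rotation (X : Type) [Fintype X] {h : ℕ} (hX : Fintype.card X = 2 * h + 1) :
    ∃ τ : X → X → ℤ, (∀ x y, τ y x = - τ x y) ∧ (∀ x y, τ x y = 0 ↔ x = y) ∧
      (∀ x y, |τ x y| ≤ h) ∧ (∀ x y z, τ x y = τ x z → y = z) ∧
      (∀ x, ∀ i : ℤ, |i| ≤ h → ∃ y, τ x y = i) := by
  classical
  have : NeZero (2 * h + 1) := ⟨by omega⟩
  have e : X ≃ ZMod (2 * h + 1) := Fintype.equivOfCardEq (by rw [hX, ZMod.card])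
  have hb : ∀ z : ZMod (2 * h + 1), |z.valMinAbs| ≤ h := by
    intro z
    have := ZMod.valMinAbs_mem_Ioc z
    rw [Set.mem_Ioc] at this
    push_cast at this
    rw [abs_le]
    constructor <;> omega
  refine ⟨fun x y => (e y - e x).valMinAbs, ?_, ?_, ?_, ?_, ?_⟩
  · intro x y
    change (e x - e y).valMinAbs = - (e y - e x).valMinAbs
    rw [← neg_sub (e y) (e x)]
    apply ZMod.valMinAbs_neg_of_ne_half
    omega
  · intro x y
    change (e y - e x).valMinAbs = 0 ↔ x = y
    rw [ZMod.valMinAbs_eq_zero, sub_eq_zero]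
    exact ⟨fun h => (e.injective h).symm, fun h => by rw [h]⟩
  · intro x y
    exact hb _
  · intro x y z hyz
    have := ZMod.injective_valMinAbs hyz
    exact e.injective (sub_left_injective this)
  · intro x i hi
    refine ⟨e.symm (e x + (i : ZMod (2 * h + 1))), ?_⟩
    simp only [Equiv.apply_symm_apply, add_sub_cancel_left]
    rw [ZMod.valMinAbs_spec]
    refine ⟨rfl, ?_⟩
    rw [abs_le] at hi
    rw [Set.mem_Ioc]
    push_cast
    constructor <;> omega

/-! ### the lower bound -/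

/-- `V` has a symmetric edge colouring with colour set `κ` in which every colour `j` has a
threshold `T j` such that the larger endpoint of each edge has degree `T j` and the other one
has smaller degree. -/
def Nice (V κ : Type) : Prop :=
  ∃ c : V → V → κ, (∀ u v, c u v = c v u) ∧ ∀ j, ∃ T : ℕ, ∀ u v, u ≠ v → c u v = j →
    ({w | u ≠ w ∧ c u w = j}.ncard = T ∧ {w | v ≠ w ∧ c v w = j}.ncard < T) ∨
    ({w | v ≠ w ∧ c v w = j}.ncard = T ∧ {w | u ≠ w ∧ c u w = j}.ncard < T)

lemma Nice.no_path {V κ : Type} (h : Nice V κ) :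
    ∃ c : Sym2 V → κ, ∀ j, ¬ HasDegreeMonotonePath (colourGraph c j) 3 := by
  obtain ⟨c, hc, h⟩ := h
  refine ⟨Sym2.lift ⟨c, hc⟩, fun j hj => ?_⟩
  obtain ⟨u, v, w, huv, hvw, h1, h2⟩ := of_has_three hj
  obtain ⟨T, hT⟩ := h j
  have hd : ∀ x, ((colourGraph (Sym2.lift ⟨c, hc⟩) j).neighborSet x) = {w | x ≠ w ∧ c x w = j} := by
    intro x; rfl
  rw [hd, hd] at h1 h2
  have e1 := hT u v huv.1 huv.2
  have e2 := hT v w hvw.1 hvw.2
  omega

lemma Nice.congr {V V' κ κ' : Type} (e : V ≃ V') (f : κ ≃ κ') (h : Nice V κ) : Nice V' κ' := by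
  obtain ⟨c, hc, h⟩ := h
  refine ⟨fun u v => f (c (e.symm u) (e.symm v)), fun u v => congrArg f (hc _ _), fun j => ?_⟩
  obtain ⟨T, hT⟩ := h (f.symm j)
  have hcard : ∀ u : V', {w | u ≠ w ∧ f (c (e.symm u) (e.symm w)) = j}.ncard =
      {w | e.symm u ≠ w ∧ c (e.symm u) w = f.symm j}.ncard := by
    intro u
    rw [← Set.ncard_image_of_injective _ e.injective]
    congr 1
    ext w
    simp only [Set.mem_ofPred_eq, Set.mem_image]
    constructor
    · rintro ⟨h1, h2⟩
      exact ⟨e.symm w, ⟨fun h => h1 (e.symm.injective h), by rw [← h2]; simp⟩, by simp⟩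
    · rintro ⟨w', ⟨h1, h2⟩, rfl⟩
      exact ⟨fun h => h1 (by rw [h]; simp), by simp [h2]⟩
  refine ⟨T, fun u v huv hj => ?_⟩
  rw [hcard, hcard]
  exact hT _ _ (fun h => huv (e.symm.injective h)) (by rw [← hj]; simp)

section Construction

open Classical

variable {A B : Type} [Fintype A] [Fintype B]

/-- proper subsets -/
abbrev Prop' (A : Type) [Fintype A] : Type := {x : Finset A // x ≠ Finset.univ}

/-- A choice function: `g D i ∈ D`, and every element of `D` is chosen for some `i ≤ h`. -/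
lemma exists_choice (A : Type) [Fintype A] [Nonempty A] {h : ℕ} (hA : Fintype.card A ≤ h + 1) :
    ∃ g : Finset A → ℕ → A, (∀ D : Finset A, D.Nonempty → ∀ i, g D i ∈ D) ∧
      ∀ D : Finset A, ∀ j ∈ D, ∃ i ≤ h, g D i = j := by
  have key : ∀ D : Finset A, ∃ g : ℕ → A, (D.Nonempty → ∀ i, g i ∈ D) ∧
      ∀ j ∈ D, ∃ i ≤ h, g i = j := by
    intro D
    by_cases hD : D.Nonempty
    · obtain ⟨a, ha⟩ := hD
      have e := D.equivFin
      refine ⟨fun i => if hi : i < D.card then (e.symm ⟨i, hi⟩ : A) else a, fun _ i => ?_, ?_⟩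
      · dsimp only
        split_ifs with hi
        · exact (e.symm ⟨i, hi⟩).2
        · exact ha
      · intro j hj
        have h1 : D.card ≤ h + 1 := (Finset.card_le_univ D).trans hA
        refine ⟨e ⟨j, hj⟩, by have := (e ⟨j, hj⟩).2; omega, ?_⟩
        simp
    · refine ⟨fun _ => Classical.arbitrary A, fun h => absurd h hD, fun j hj => ?_⟩
      exact absurd ⟨j, hj⟩ hD
  choose g hg using key
  exact ⟨g, fun D hD i => (hg D).1 hD i, fun D j hj => (hg D).2 j hj⟩

/-- Counting the neighbours in one block of colours. -/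
lemma count {X Y A : Type} [Fintype X] [DecidableEq X] [Fintype Y] {h : ℕ} (τ : Y → Y → ℤ)
    (hb : ∀ x y, |τ x y| ≤ h) (hi : ∀ x y z, τ x y = τ x z → y = z)
    (hs : ∀ x, ∀ i : ℤ, |i| ≤ h → ∃ y, τ x y = i) (x : X) (y : Y) (σ : X → ℤ)
    (hσ : ∀ x', x' ≠ x → σ x' = 1 ∨ σ x' = -1) (g : X → ℕ → A) (j : A) :
    {w : X × Y | w.1 ≠ x ∧ 0 ≤ σ w.1 * τ y w.2 ∧ g w.1 (τ y w.2).natAbs = j}.ncard =
      ∑ x' ∈ Finset.univ.erase x, ((Finset.range (h + 1)).filter (fun i => g x' i = j)).card := by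
  rw [← Finset.card_sigma, ← Set.ncard_coe_finset]
  apply Set.ncard_congr (fun w _ => (⟨w.1, (τ y w.2).natAbs⟩ : (_ : X) × ℕ))
  · rintro ⟨x', y'⟩ ⟨h1, h2, h3⟩
    simp only at h1 h2 h3
    have := abs_le.1 (hb y y')
    simp only [Finset.coe_sigma, Set.mem_sigma_iff, Finset.coe_erase, Finset.coe_univ,
      Finset.coe_filter, Finset.mem_range]
    refine ⟨⟨trivial, h1⟩, ?_, h3⟩
    omega
  · rintro ⟨x', y'⟩ ⟨x'', y''⟩ ⟨h1, h2, h3⟩ ⟨h1', h2', h3'⟩ he
    simp only at h1 h2 h3 h1' h2' h3'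
    simp only [Sigma.mk.injEq, heq_eq_eq] at he
    obtain ⟨rfl, he⟩ := he
    have : τ y y' = τ y y'' := by
      rcases hσ x' h1 with h | h
      · rw [h] at h2 h2'; omega
      · rw [h] at h2 h2'; omega
    rw [hi _ _ _ this]
  · rintro ⟨x', i⟩ hw
    simp only [Finset.coe_sigma, Set.mem_sigma_iff, Finset.coe_erase, Finset.coe_univ,
      Finset.coe_filter, Finset.mem_range] at hw
    obtain ⟨⟨-, h1⟩, h2, h3⟩ := hw
    have h1' : x' ≠ x := h1
    rcases hσ x' h1' with h | h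
    · obtain ⟨y', hy'⟩ := hs y (i : ℤ) (by rw [abs_le]; omega)
      refine ⟨(x', y'), ⟨h1', ?_, ?_⟩, ?_⟩
      · simp only [h, hy']; omega
      · simp only [hy', Int.natAbs_natCast]; exact h3
      · simp [hy']
    · obtain ⟨y', hy'⟩ := hs y (-(i : ℤ)) (by rw [abs_le]; omega)
      refine ⟨(x', y'), ⟨h1', ?_, ?_⟩, ?_⟩
      · simp only [h, hy']; omega
      · simp only [hy', Int.natAbs_neg, Int.natAbs_natCast]; exact h3
      · simp [hy']

/-- Summing over the differences. -/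
lemma sum_diff {A : Type} [Fintype A] (x : Prop' A) (F : Finset A → ℕ) :
    ∑ x' ∈ Finset.univ.erase x, F (x.1 ∆ x'.1) + F x.1ᶜ = ∑ D ∈ Finset.univ.erase ∅, F D := by
  have hx : x.1ᶜ ≠ ∅ := fun h => x.2 (by rwa [Finset.compl_eq_empty_iff] at h)
  rw [← Finset.sum_erase_add _ _ (show x.1ᶜ ∈ Finset.univ.erase ∅ from by simp [hx])]
  congr 1
  refine Finset.sum_nbij' (fun x' => x.1 ∆ x'.1)
    (fun D => if h : x.1 ∆ D ≠ Finset.univ then ⟨x.1 ∆ D, h⟩ else x) ?_ ?_ ?_ ?_ ?_
  · intro x' hx'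
    simp only [Finset.mem_erase, Finset.mem_univ, and_true] at hx' ⊢
    refine ⟨fun h => ?_, fun h => ?_⟩
    · apply x'.2
      have : x.1 ∆ (x.1 ∆ x'.1) = x.1 ∆ x.1ᶜ := by rw [h]
      rw [symmDiff_symmDiff_cancel_left] at this
      rw [this]; simp
    · rw [Finset.bot_eq_empty.symm, symmDiff_eq_bot] at h
      exact hx' (Subtype.ext h.symm)
  · intro D hD
    simp only [Finset.mem_erase, Finset.mem_univ, and_true] at hD ⊢
    split_ifs with h
    · intro h'
      apply hD.2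
      have h2 : x.1 ∆ D = x.1 := congrArg Subtype.val h'
      have : x.1 ∆ (x.1 ∆ D) = x.1 ∆ x.1 := by rw [h2]
      rw [symmDiff_symmDiff_cancel_left, symmDiff_self] at this
      exact this
    · exfalso
      apply hD.1
      have h2 : x.1 ∆ D = Finset.univ := by by_contra h3; exact h h3
      have : x.1 ∆ (x.1 ∆ D) = x.1 ∆ Finset.univ := by rw [h2]
      rw [symmDiff_symmDiff_cancel_left] at this
      rw [this]
      ext a
      simp [Finset.mem_symmDiff]
  · intro x' hx'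
    have : x.1 ∆ (x.1 ∆ x'.1) ≠ Finset.univ := by
      rw [symmDiff_symmDiff_cancel_left]; exact x'.2
    rw [dif_pos this]
    exact Subtype.ext (symmDiff_symmDiff_cancel_left _ _)
  · intro D hD
    simp only [Finset.mem_erase, Finset.mem_univ, and_true] at hD
    have h2 : x.1 ∆ D ≠ Finset.univ := by
      intro h2
      apply hD.1
      have : x.1 ∆ (x.1 ∆ D) = x.1 ∆ Finset.univ := by rw [h2]
      rw [symmDiff_symmDiff_cancel_left] at this
      rw [this]
      ext a
      simp [Finset.mem_symmDiff]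
    rw [dif_pos h2]
    exact symmDiff_symmDiff_cancel_left _ _
  · intro x' hx'
    rfl

lemma card_Prop' (A : Type) [Fintype A] : Fintype.card (Prop' A) = 2 ^ Fintype.card A - 1 := by
  have := Fintype.card_subtype_compl (fun x : Finset A => x = Finset.univ)
  rw [Fintype.card_subtype_eq, Fintype.card_finset] at this
  exact this

lemma natCard_Prop' (A : Type) [Fintype A] : Nat.card (Prop' A) = 2 ^ Fintype.card A - 1 := by
  rw [Nat.card_eq_fintype_card, card_Prop']

theorem nice_product (A B : Type) [Fintype A] [Fintype B] [Nonempty A] [Nonempty B] {h₁ h₂ : ℕ}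
    (hX : Fintype.card (Prop' A) = 2 * h₁ + 1) (hY : Fintype.card (Prop' B) = 2 * h₂ + 1)
    (hA : Fintype.card A ≤ h₂ + 1) (hB : Fintype.card B ≤ h₁ + 1) :
    Nice (Prop' A × Prop' B) (A ⊕ B) := by
  obtain ⟨τ₁, t1n, t1z, t1b, t1i, t1s⟩ := exists_rotation (Prop' A) hX
  obtain ⟨τ₂, t2n, t2z, t2b, t2i, t2s⟩ := exists_rotation (Prop' B) hY
  obtain ⟨g₁, g1m, g1s⟩ := exists_choice A hA
  obtain ⟨g₂, g2m, g2s⟩ := exists_choice B hB
  -- the colouring
  let c : Prop' A × Prop' B → Prop' A × Prop' B → A ⊕ B := fun u v =>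
    if τ₁ u.1 v.1 ≠ 0 ∧ 0 ≤ τ₁ u.1 v.1 * τ₂ u.2 v.2 then
      Sum.inl (g₁ (u.1.1 ∆ v.1.1) (τ₂ u.2 v.2).natAbs)
    else Sum.inr (g₂ (u.2.1 ∆ v.2.1) (τ₁ u.1 v.1).natAbs)
  have hcl : ∀ u v j, c u v = Sum.inl j ↔
      (τ₁ u.1 v.1 ≠ 0 ∧ 0 ≤ τ₁ u.1 v.1 * τ₂ u.2 v.2) ∧
        g₁ (u.1.1 ∆ v.1.1) (τ₂ u.2 v.2).natAbs = j := by
    intro u v j
    simp only [c]
    split_ifs with h
    · simp [h]
    · simp [h]
  have hcr : ∀ u v j, c u v = Sum.inr j ↔
      ¬ (τ₁ u.1 v.1 ≠ 0 ∧ 0 ≤ τ₁ u.1 v.1 * τ₂ u.2 v.2) ∧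
        g₂ (u.2.1 ∆ v.2.1) (τ₁ u.1 v.1).natAbs = j := by
    intro u v j
    simp only [c]
    split_ifs with h
    · simp [h]
    · simp [h]
  -- degrees in the first block
  let n₁ : Finset A → A → ℕ := fun D j => ((Finset.range (h₂ + 1)).filter (fun i => g₁ D i = j)).card
  let n₂ : Finset B → B → ℕ := fun D j => ((Finset.range (h₁ + 1)).filter (fun i => g₂ D i = j)).card
  have hn1 : ∀ D j, D.Nonempty → j ∉ D → n₁ D j = 0 := by
    intro D j hD hj
    simp only [n₁, Finset.card_eq_zero, Finset.filter_eq_empty_iff]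
    intro i _ hi
    exact hj (hi ▸ g1m D hD i)
  have hn1' : ∀ D j, j ∈ D → 0 < n₁ D j := by
    intro D j hj
    obtain ⟨i, hi, hij⟩ := g1s D j hj
    simp only [n₁, Finset.card_pos]
    exact ⟨i, by simp only [Finset.mem_filter, Finset.mem_range]; exact ⟨by omega, hij⟩⟩
  have hn2 : ∀ D j, D.Nonempty → j ∉ D → n₂ D j = 0 := by
    intro D j hD hj
    simp only [n₂, Finset.card_eq_zero, Finset.filter_eq_empty_iff]
    intro i _ hi
    exact hj (hi ▸ g2m D hD i)
  have hn2' : ∀ D j, j ∈ D → 0 < n₂ D j := by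
    intro D j hj
    obtain ⟨i, hi, hij⟩ := g2s D j hj
    simp only [n₂, Finset.card_pos]
    exact ⟨i, by simp only [Finset.mem_filter, Finset.mem_range]; exact ⟨by omega, hij⟩⟩
  have hsgn : ∀ z : ℤ, z ≠ 0 → (0 < z ∧ z.sign = 1) ∨ (z < 0 ∧ z.sign = -1) := by
    intro z hz
    rcases lt_or_gt_of_ne hz with h | h
    · exact Or.inr ⟨h, Int.sign_eq_neg_one_of_neg h⟩
    · exact Or.inl ⟨h, Int.sign_eq_one_of_pos h⟩
  have d1 : ∀ (u : Prop' A × Prop' B) (j : A),
      {w | u ≠ w ∧ c u w = Sum.inl j}.ncard + n₁ u.1.1ᶜ j =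
        ∑ D ∈ Finset.univ.erase ∅, n₁ D j := by
    rintro ⟨x, y⟩ j
    rw [← sum_diff x (fun D => n₁ D j)]
    congr 1
    have := count τ₂ t2b t2i t2s x y (fun x' => (τ₁ x x').sign)
      (fun x' hx' => by
        rcases hsgn (τ₁ x x') (fun h => hx' ((t1z _ _).1 h).symm) with h | h
        · exact Or.inl h.2
        · exact Or.inr h.2)
      (fun x' i => g₁ (x.1 ∆ x'.1) i) j
    refine Eq.trans ?_ this
    congr 1
    ext ⟨x', y'⟩
    show (((x, y) : Prop' A × Prop' B) ≠ (x', y') ∧ c (x, y) (x', y') = Sum.inl j) ↔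
      (x' ≠ x ∧ 0 ≤ (τ₁ x x').sign * τ₂ y y' ∧ g₁ (x.1 ∆ x'.1) (τ₂ y y').natAbs = j)
    rw [hcl]
    constructor
    · rintro ⟨-, ⟨h1, h2⟩, h3⟩
      simp only at h1 h2 h3
      refine ⟨fun h => h1 ((t1z _ _).2 h.symm), ?_, h3⟩
      rcases hsgn _ h1 with ⟨h4, h5⟩ | ⟨h4, h5⟩
      · rw [h5]; nlinarith
      · rw [h5]; nlinarith
    · rintro ⟨h1, h2, h3⟩
      have h1' : τ₁ x x' ≠ 0 := fun h => h1 ((t1z _ _).1 h).symm
      refine ⟨fun h => h1 (congrArg Prod.fst h).symm, ⟨h1', ?_⟩, h3⟩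
      simp only
      rcases hsgn _ h1' with ⟨h4, h5⟩ | ⟨h4, h5⟩
      · rw [h5] at h2
        have : 0 ≤ τ₂ y y' := by linarith
        positivity
      · rw [h5] at h2
        have : τ₂ y y' ≤ 0 := by linarith
        nlinarith
  have d2 : ∀ (u : Prop' A × Prop' B) (j : B),
      {w | u ≠ w ∧ c u w = Sum.inr j}.ncard + n₂ u.2.1ᶜ j =
        ∑ D ∈ Finset.univ.erase ∅, n₂ D j := by
    rintro ⟨x, y⟩ j
    rw [← sum_diff y (fun D => n₂ D j)]
    congr 1
    have := count τ₁ t1b t1i t1s y x (fun y' => -(τ₂ y y').sign)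
      (fun y' hy' => by
        rcases hsgn (τ₂ y y') (fun h => hy' ((t2z _ _).1 h).symm) with h | h
        · right; rw [h.2]
        · left; rw [h.2]; rfl)
      (fun y' i => g₂ (y.1 ∆ y'.1) i) j
    refine Eq.trans ?_ this
    rw [← Set.ncard_image_of_injective _ Prod.swap_injective]
    congr 1
    ext ⟨y', x'⟩
    rw [Set.mem_image]
    show _ ↔ (y' ≠ y ∧ 0 ≤ -(τ₂ y y').sign * τ₁ x x' ∧ g₂ (y.1 ∆ y'.1) (τ₁ x x').natAbs = j)
    constructor
    · rintro ⟨⟨a, b⟩, ⟨h0, h1⟩, h2⟩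
      simp only [Prod.swap_prod_mk, Prod.mk.injEq] at h2
      obtain ⟨rfl, rfl⟩ := h2
      rw [hcr] at h1
      obtain ⟨h1, h3⟩ := h1
      simp only at h1 h3
      have hb : b ≠ y := by
        rintro rfl
        apply h1
        refine ⟨fun h => h0 (by rw [(t1z _ _).1 h]), ?_⟩
        rw [(t2z b b).2 rfl]; simp
      refine ⟨hb, ?_, h3⟩
      have h2' : τ₂ y b ≠ 0 := fun h => hb ((t2z _ _).1 h).symm
      by_cases h4 : τ₁ x a = 0
      · rw [h4]; simp
      · have h5 : τ₁ x a * τ₂ y b < 0 := by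
          by_contra h6
          exact h1 ⟨h4, not_lt.1 h6⟩
        rcases hsgn _ h2' with ⟨h7, h8⟩ | ⟨h7, h8⟩
        · rw [h8]; nlinarith
        · rw [h8]; nlinarith
    · rintro ⟨h1, h2, h3⟩
      refine ⟨(x', y'), ⟨fun h => h1 (congrArg Prod.snd h).symm, ?_⟩, rfl⟩
      rw [hcr]
      refine ⟨?_, h3⟩
      rintro ⟨h4, h5⟩
      simp only at h4 h5
      have h1' : τ₂ y y' ≠ 0 := fun h => h1 ((t2z _ _).1 h).symm
      rcases hsgn _ h1' with ⟨h7, h8⟩ | ⟨h7, h8⟩
      · rw [h8] at h2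
        have h9 : τ₁ x x' < 0 := lt_of_le_of_ne (by linarith) h4
        nlinarith
      · rw [h8] at h2
        have h9 : 0 < τ₁ x x' := lt_of_le_of_ne (by linarith) (Ne.symm h4)
        nlinarith
  refine ⟨c, ?_, ?_⟩
  · intro u v
    simp only [c, t1n u.1 v.1, t2n u.2 v.2, neg_ne_zero, neg_mul_neg, Int.natAbs_neg,
      symmDiff_comm v.1.1 u.1.1, symmDiff_comm v.2.1 u.2.1]
  · rintro (j | j)
    · refine ⟨∑ D ∈ Finset.univ.erase ∅, n₁ D j, fun u v huv hj => ?_⟩
      have h1 := (hcl u v j).1 hj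
      have h2 : u.1.1 ∆ v.1.1 ≠ ∅ := by
        intro h
        rw [Finset.bot_eq_empty.symm, symmDiff_eq_bot] at h
        exact h1.1.1 ((t1z _ _).2 (Subtype.ext h))
      have h3 : j ∈ u.1.1 ∆ v.1.1 := by
        rw [← h1.2]; exact g1m _ (Finset.nonempty_iff_ne_empty.2 h2) _
      have hne : ∀ x : Prop' A, x.1ᶜ.Nonempty := fun x => by
        rw [Finset.nonempty_iff_ne_empty, Ne, Finset.compl_eq_empty_iff]; exact x.2
      have e1 := d1 u j
      have e2 := d1 v j
      rw [Finset.mem_symmDiff] at h3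
      rcases h3 with ⟨h3, h4⟩ | ⟨h3, h4⟩
      · left
        have h5 := hn1 u.1.1ᶜ j (hne _) (by simpa using h3)
        have h6 := hn1' v.1.1ᶜ j (by simpa using h4)
        omega
      · right
        have h5 := hn1 v.1.1ᶜ j (hne _) (by simpa using h3)
        have h6 := hn1' u.1.1ᶜ j (by simpa using h4)
        omega
    · refine ⟨∑ D ∈ Finset.univ.erase ∅, n₂ D j, fun u v huv hj => ?_⟩
      have h1 := (hcr u v j).1 hj
      have h2 : u.2.1 ∆ v.2.1 ≠ ∅ := by
        intro h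
        rw [Finset.bot_eq_empty.symm, symmDiff_eq_bot] at h
        apply h1.1
        have h6 : u.2 = v.2 := Subtype.ext h
        refine ⟨fun h7 => huv (Prod.ext ((t1z _ _).1 h7) h6), ?_⟩
        rw [(t2z u.2 v.2).2 h6]; simp
      have h3 : j ∈ u.2.1 ∆ v.2.1 := by
        rw [← h1.2]; exact g2m _ (Finset.nonempty_iff_ne_empty.2 h2) _
      have hne : ∀ x : Prop' B, x.1ᶜ.Nonempty := fun x => by
        rw [Finset.nonempty_iff_ne_empty, Ne, Finset.compl_eq_empty_iff]; exact x.2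
      have e1 := d2 u j
      have e2 := d2 v j
      rw [Finset.mem_symmDiff] at h3
      rcases h3 with ⟨h3, h4⟩ | ⟨h3, h4⟩
      · left
        have h5 := hn2 u.2.1ᶜ j (hne _) (by simpa using h3)
        have h6 := hn2' v.2.1ᶜ j (by simpa using h4)
        omega
      · right
        have h5 := hn2 v.2.1ᶜ j (hne _) (by simpa using h3)
        have h6 := hn2' u.2.1ᶜ j (by simpa using h4)
        omega

end Construction

/-- A colouring of the complete graph on `(2 ^ a - 1) (2 ^ b - 1)` vertices. -/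
lemma lower {a b : ℕ} (ha : 1 ≤ a) (hb : 1 ≤ b) (hab : a ≤ 2 ^ (b - 1)) (hba : b ≤ 2 ^ (a - 1)) :
    ∃ c : Sym2 (Fin ((2 ^ a - 1) * (2 ^ b - 1))) → Fin (a + b),
      ∀ j, ¬ HasDegreeMonotonePath (colourGraph c j) 3 := by
  have : NeZero a := ⟨by omega⟩
  have : NeZero b := ⟨by omega⟩
  have h2a : 2 ^ a = 2 * 2 ^ (a - 1) := by
    rw [← pow_succ']; congr 1; omega
  have h2b : 2 ^ b = 2 * 2 ^ (b - 1) := by
    rw [← pow_succ']; congr 1; omega
  have hpa : 0 < 2 ^ (a - 1) := by positivity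
  have hpb : 0 < 2 ^ (b - 1) := by positivity
  have h := nice_product (Fin a) (Fin b) (h₁ := 2 ^ (a - 1) - 1) (h₂ := 2 ^ (b - 1) - 1)
    (by rw [card_Prop', Fintype.card_fin]; omega) (by rw [card_Prop', Fintype.card_fin]; omega)
    (by rw [Fintype.card_fin]; omega) (by rw [Fintype.card_fin]; omega)
  have e : Prop' (Fin a) × Prop' (Fin b) ≃ Fin ((2 ^ a - 1) * (2 ^ b - 1)) :=
    Finite.equivFinOfCardEq (by
      rw [Nat.card_prod, natCard_Prop', natCard_Prop', Fintype.card_fin, Fintype.card_fin])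
  exact (h.congr e finSumFinEquiv).no_path

lemma lt_M {n k m : ℕ} (hk : (Good k m).Nonempty) (c : Sym2 (Fin n) → Fin k)
    (hc : ∀ j, ¬ HasDegreeMonotonePath (colourGraph c j) m) : n < M k m := by
  by_contra h
  obtain ⟨j, hj⟩ := Nat.sInf_mem hk n (not_lt.1 h) c
  exact hc j hj

lemma le_two_pow (a : ℕ) (ha : 3 ≤ a) : a + 1 ≤ 2 ^ (a - 1) := by
  induction a, ha using Nat.le_induction with
  | base => norm_num
  | succ a ha ih =>
    have : 2 ^ (a + 1 - 1) = 2 * 2 ^ (a - 1) := by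
      rw [← pow_succ']; congr 1; omega
    omega

lemma lower_M (k : ℕ) (hk : 6 ≤ k) : 2 ^ k - 4 * 2 ^ (k - k / 2) ≤ (M k 3 : ℝ) := by
  set a := k / 2 with ha
  set b := k - a with hb
  have h1 : a ≤ b := by omega
  have h2 : b ≤ a + 1 := by omega
  have h3 : 3 ≤ a := by omega
  have h4 := le_two_pow a h3
  have h5 := le_two_pow b (by omega)
  obtain ⟨c, hc⟩ := lower (a := a) (b := b) (by omega) (by omega) (by omega) (by omega)
  have hab : a + b = k := by omega
  have h6 := lt_M ⟨_, good_upper (a + b)⟩ c hc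
  rw [hab] at h6
  have h7 : (((2 ^ a - 1) * (2 ^ b - 1) : ℕ) : ℝ) ≤ M k 3 := by exact_mod_cast h6.le
  have h8 : 1 ≤ 2 ^ a := Nat.one_le_two_pow
  have h9 : 1 ≤ 2 ^ b := Nat.one_le_two_pow
  push_cast [Nat.cast_sub h8, Nat.cast_sub h9] at h7
  have h10 : (2 : ℝ) ^ k = 2 ^ a * 2 ^ b := by rw [← pow_add, hab]
  have h11 : (2 : ℝ) ^ a ≤ 2 ^ b := pow_le_pow_right₀ (by norm_num) h1
  have h12 : (0 : ℝ) < 2 ^ b := by positivity
  nlinarith

/-- **Answer to Q1.** The limit exists and equals `1`. -/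
theorem result : (∀ k, (Good k 3).Nonempty) ∧
    Tendsto (fun k : ℕ => (M k 3 : ℝ) / 2 ^ k) atTop (𝓝 1) := by
  refine ⟨fun k => ⟨_, good_upper k⟩, ?_⟩
  have hz : Tendsto (fun k : ℕ => (1 / 2 : ℝ) ^ (k / 2)) atTop (𝓝 0) :=
    (tendsto_pow_atTop_nhds_zero_of_lt_one (by norm_num) (by norm_num)).comp
      (Nat.tendsto_div_const_atTop (by norm_num))
  have hz' : Tendsto (fun k : ℕ => (1 / 2 : ℝ) ^ k) atTop (𝓝 0) :=
    tendsto_pow_atTop_nhds_zero_of_lt_one (by norm_num) (by norm_num)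
  have hl : Tendsto (fun k : ℕ => 1 - 4 * (1 / 2 : ℝ) ^ (k / 2)) atTop (𝓝 1) := by
    simpa using (tendsto_const_nhds (x := (1 : ℝ))).sub (hz.const_mul 4)
  have hu : Tendsto (fun k : ℕ => 1 + (1 / 2 : ℝ) ^ k) atTop (𝓝 1) := by
    simpa using (tendsto_const_nhds (x := (1 : ℝ))).add hz'
  refine tendsto_of_tendsto_of_tendsto_of_le_of_le' hl hu ?_ ?_
  · filter_upwards [eventually_ge_atTop 6] with k hk
    have h1 := lower_M k hk
    rw [le_div_iff₀ (by positivity)]
    have h2 : (2 : ℝ) ^ k = 2 ^ (k / 2) * 2 ^ (k - k / 2) := by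
      rw [← pow_add]; congr 1; omega
    have h3 : (1 / 2 : ℝ) ^ (k / 2) * 2 ^ k = 2 ^ (k - k / 2) := by
      rw [h2, ← mul_assoc, ← mul_pow]; norm_num
    calc (1 - 4 * (1 / 2 : ℝ) ^ (k / 2)) * 2 ^ k = 2 ^ k - 4 * ((1 / 2 : ℝ) ^ (k / 2) * 2 ^ k) := by
          ring
      _ = 2 ^ k - 4 * 2 ^ (k - k / 2) := by rw [h3]
      _ ≤ M k 3 := h1
  · filter_upwards with k
    rw [div_le_iff₀ (by positivity)]
    have h1 : M k 3 ≤ 2 ^ k + 1 := Nat.sInf_le (good_upper k)
    have h2 : (M k 3 : ℝ) ≤ 2 ^ k + 1 := by exact_mod_cast h1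
    have h3 : (1 / 2 : ℝ) ^ k * 2 ^ k = 1 := by rw [← mul_pow]; norm_num
    calc (M k 3 : ℝ) ≤ 2 ^ k + 1 := h2
      _ = 2 ^ k + (1 / 2 : ℝ) ^ k * 2 ^ k := by rw [h3]
      _ = (1 + (1 / 2 : ℝ) ^ k) * 2 ^ k := by ring

end Pool.Agent.Results.MP_7de56e_co.LimitOne
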